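import Mathlib
import Pool.Agent.H44.BK2

namespace Pool.Agent.Results.MP_196ef9_co.Q1False

open Pool.Agent.H44.BK

theorem result : ∀ C : ℝ, ∃ (V : Type) (_ : Fintype V) (G : SimpleGraph V),
    C < gbucket G - bucket G :=
  gap

end Pool.Agent.Results.MP_196ef9_co.Q1False
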